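import Pool.Agent.Y192.FN.Rat
import Pool.Agent.Y288.FG.Gm

/-!
# Rational curves and multiplicative groups in projective covers
-/

set_option autoImplicit false

namespace Pool.Agent.Y288.FN

open MvPolynomial Pool.Agent.Y192.FN Pool.Agent.Y288.FG

theorem aeval_scale {R : Type} [CommRing R] [Algebra ℂ R] {n d : ℕ}
    {F : MvPolynomial (Fin (n + 1)) ℂ} (hF : F.IsHomogeneous d) (c : R) (x : Fin (n + 1) → R) :
    aeval (fun i => c * x i) F = c ^ d * aeval x F := by
  rw [aeval_def, aeval_def, eval₂_eq', eval₂_eq', Finset.mul_sum]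
  refine Finset.sum_congr rfl fun b hb => ?_
  have h1 : ∑ i, b i = d := by
    have := hF (mem_support_iff.1 hb)
    rw [← this, Finsupp.weight_apply, Finsupp.sum_fintype _ _ (by simp)]
    simp
  have h2 : ∏ i, (c * x i) ^ b i = c ^ d * ∏ i, x i ^ b i := by
    rw [← h1, ← Finset.prod_pow_eq_pow_sum, ← Finset.prod_mul_distrib]
    exact Finset.prod_congr rfl fun i _ => mul_pow _ _ _
  rw [h2]
  ring

theorem eval_ae {n : ℕ} (m : ℕ) (p : Fin (n + 1) → Polynomial ℂ)
    (G : MvPolynomial (Fin (n + 1)) ℂ) (z : ℂ) : (aeval (fun i => p i ^ m) G).eval z =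
      aeval (fun i => (p i).eval z ^ m) G := by
  rw [eval_poly', MvPolynomial.aeval_eq_eval]

theorem t_nrat : St_nrat := by
  intro n r X m hm he hG
  constructor
  · intro h p s hps
    refine h p s ⟨fun z _ => hps.ne z, fun z _ => hps.sol z, ?_⟩
    by_contra hcon
    push Not at hcon
    obtain ⟨z, z', i, j, hne⟩ := hps.nonconst
    apply hne
    have h1 : ∀ y' : ℂ, y' ≠ 0 → ∀ y i j,
        (p i).eval y * (p j).eval y' = (p j).eval y * (p i).eval y' := by
      intro y' hy' y i j
      have h2 : p i * Polynomial.C ((p j).eval y') - p j * Polynomial.C ((p i).eval y') = 0 :=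
        poly_zero fun x hx => by
          rw [Polynomial.eval_sub, Polynomial.eval_mul, Polynomial.eval_mul, Polynomial.eval_C,
            Polynomial.eval_C]
          exact sub_eq_zero.2 (hcon x y' hx hy' i j)
      have h3 := congrArg (Polynomial.eval y) h2
      rw [Polynomial.eval_sub, Polynomial.eval_mul, Polynomial.eval_mul, Polynomial.eval_C,
        Polynomial.eval_C, Polynomial.eval_zero, sub_eq_zero] at h3
      exact h3
    have h2 : Polynomial.C ((p i).eval z) * p j - Polynomial.C ((p j).eval z) * p i = 0 :=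
      poly_zero fun x hx => by
        rw [Polynomial.eval_sub, Polynomial.eval_mul, Polynomial.eval_mul, Polynomial.eval_C,
          Polynomial.eval_C]
        exact sub_eq_zero.2 (h1 x hx z i j)
    have h3 := congrArg (Polynomial.eval z') h2
    rw [Polynomial.eval_sub, Polynomial.eval_mul, Polynomial.eval_mul, Polynomial.eval_C,
      Polynomial.eval_C, Polynomial.eval_zero, sub_eq_zero] at h3
    exact h3
  · intro h p s hps
    classical
    have hex : ∃ i, p i ≠ 0 := by
      obtain ⟨i, hi⟩ := hps.ne 1 one_ne_zero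
      exact ⟨i, fun h0 => hi (by rw [h0]; simp)⟩
    obtain ⟨i0, hi0, hmin⟩ := Finset.exists_min_image (Finset.univ.filter fun i => p i ≠ 0)
      (fun i => (p i).rootMultiplicity 0) (by
        obtain ⟨i, hi⟩ := hex
        exact ⟨i, Finset.mem_filter.mpr ⟨Finset.mem_univ _, hi⟩⟩)
    have hi0' : p i0 ≠ 0 := (Finset.mem_filter.mp hi0).2
    set a := (p i0).rootMultiplicity 0 with ha
    have hp : ∀ i, ∃ p' : Polynomial ℂ, p i = Polynomial.X ^ a * p' := by
      intro i
      by_cases h0 : p i = 0
      · exact ⟨0, by rw [h0, mul_zero]⟩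
      · have h4 := hmin i (Finset.mem_filter.mpr ⟨Finset.mem_univ _, h0⟩)
        have h5 : Polynomial.X ^ a ∣ p i := by
          have h6 := (Polynomial.le_rootMultiplicity_iff h0 (a := (0 : ℂ)) (n := a)).mp h4
          rwa [Polynomial.C_0, sub_zero] at h6
        exact h5
    choose p' hp' using hp
    have hp0 : (p' i0).eval 0 ≠ 0 := by
      intro h0
      have h4 : Polynomial.X ∣ p' i0 := by
        rw [← sub_zero Polynomial.X, ← Polynomial.C_0]
        exact Polynomial.dvd_iff_isRoot.mpr h0
      obtain ⟨q, hq⟩ := h4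
      have h5 : a + 1 ≤ (p i0).rootMultiplicity 0 := by
        rw [Polynomial.le_rootMultiplicity_iff hi0', Polynomial.C_0, sub_zero]
        refine ⟨q, ?_⟩
        rw [hp' i0, hq]
        ring
      omega
    have hpm : ∀ {d : ℕ} {F : MvPolynomial (Fin (n + 1)) ℂ}, F.IsHomogeneous d →
        aeval (fun i => p i ^ m) F =
          (Polynomial.X ^ (a * (m * d)) : Polynomial ℂ) * aeval (fun i => p' i ^ m) F := by
      intro d F hF
      have h1 : (fun i => p i ^ m) = fun i => (Polynomial.X ^ (a * m) : Polynomial ℂ) * p' i ^ m := by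
        funext i
        rw [hp' i, mul_pow, ← pow_mul]
      rw [h1, aeval_scale hF, ← pow_mul, mul_assoc a m d]
    have heq : ∀ j, s j ^ X.e j = aeval (fun i => p i ^ m) (X.F j) := by
      intro j
      rw [← sub_eq_zero]
      refine poly_zero fun z hz => ?_
      rw [Polynomial.eval_sub, Polynomial.eval_pow, eval_ae, sub_eq_zero]
      exact (hps.sol z hz).eqn j
    have hX0 : ∀ k : ℕ, (Polynomial.X ^ k : Polynomial ℂ) ≠ 0 := fun k =>
      pow_ne_zero _ Polynomial.X_ne_zero
    have hJ : ∀ f ∈ X.J, aeval (fun i => p' i ^ m) f = 0 := by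
      intro f hf
      rw [← sum_homogeneousComponent f, map_sum]
      refine Finset.sum_eq_zero fun k _ => ?_
      have h1 : aeval (fun i => p i ^ m) (homogeneousComponent k f) = 0 := by
        refine poly_zero fun z hz => ?_
        rw [eval_ae]
        exact (hps.sol z hz).mem _ (X.hJ f hf k)
      rw [hpm (homogeneousComponent_isHomogeneous k f)] at h1
      exact (mul_eq_zero.1 h1).resolve_left (hX0 _)
    have hw : ∀ j, m * X.d j / X.e j * X.e j = m * X.d j := fun j =>
      Nat.div_mul_cancel ((he j).mul_right _)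
    have hs : ∀ j, ∃ s' : Polynomial ℂ, s j = Polynomial.X ^ (a * (m * X.d j / X.e j)) * s' := by
      intro j
      have h6 : ((Polynomial.X : Polynomial ℂ) ^ (a * (m * X.d j / X.e j))) ^ X.e j ∣
          s j ^ X.e j := by
        rw [← pow_mul, mul_assoc, hw, heq j, hpm (X.hF j)]
        exact dvd_mul_right _ _
      exact (IsIntegrallyClosed.pow_dvd_pow_iff (X.he j).ne').mp h6
    choose s' hs' using hs
    have heq' : ∀ j, s' j ^ X.e j = aeval (fun i => p' i ^ m) (X.F j) := by
      intro j
      have h1 := heq j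
      rw [hpm (X.hF j), hs' j, mul_pow, ← pow_mul, mul_assoc a, hw] at h1
      exact mul_left_cancel₀ (hX0 _) h1
    refine h p' s' ⟨fun z => ?_, fun z => ⟨fun f hf => ?_, fun j => ?_, ?_⟩, ?_⟩
    · by_cases hz : z = 0
      · exact ⟨i0, by rw [hz]; exact hp0⟩
      · obtain ⟨i, hi⟩ := hps.ne z hz
        refine ⟨i, fun h0 => hi ?_⟩
        rw [hp' i, Polynomial.eval_mul, h0, mul_zero]
    · rw [← eval_ae, hJ f hf, Polynomial.eval_zero]
    · rw [← eval_ae, ← heq' j, Polynomial.eval_pow]
    · rw [hG, map_one]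
      exact one_ne_zero
    · obtain ⟨z, z', hz, hz', i, j, hne⟩ := hps.nonconst
      refine ⟨z, z', i, j, fun h0 => hne ?_⟩
      rw [hp' i, hp' j, Polynomial.eval_mul, Polynomial.eval_mul, Polynomial.eval_mul,
        Polynomial.eval_mul, Polynomial.eval_pow, Polynomial.eval_pow, Polynomial.eval_X,
        Polynomial.eval_X]
      linear_combination (z ^ a * z' ^ a) * h0

end Pool.Agent.Y288.FN
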