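import Pool.Agent.Y192.FN.Sp
import Pool.Agent.W603.LV.Spec

/-!
# Specialization of points with coordinates in function fields
-/

set_option autoImplicit false

namespace Pool.Agent.Y288.FN

open MvPolynomial FF Pool.Agent.W603.LV Pool.Agent.W603.PV Pool.Agent.Y192.FN
open Pool.Agent.Y192.KC (Poly)

variable {σ : Type} {M : Type} [Field M] [Algebra ℂ M]

theorem ge_mv (P : Place ℂ M) {f : σ → M} (hf : ∀ j, Ge P 0 (f j))
    (H : MvPolynomial σ ℂ) : Ge P 0 (aeval f H) := by
  induction H using MvPolynomial.induction_on with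
  | C a => rw [aeval_C]; exact Ge.const a
  | add p q hp hq => rw [map_add]; exact hp.add hq
  | mul_X p j hp => rw [map_mul, aeval_X]; simpa using hp.mul (hf j)

theorem red_mv (P : Place ℂ M) {f : σ → M} (hf : ∀ j, Ge P 0 (f j)) {c : σ → ℂ}
    (hc : ∀ j, Ge P 1 (f j - algebraMap ℂ M (c j))) (H : MvPolynomial σ ℂ) :
    Ge P 1 (aeval f H - algebraMap ℂ M (eval c H)) := by
  induction H using MvPolynomial.induction_on with
  | C a => rw [aeval_C, eval_C, sub_self]; exact Ge.zero
  | add p q hp hq =>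
    rw [map_add, map_add, map_add, add_sub_add_comm]; exact hp.add hq
  | mul_X p j hp =>
    rw [map_mul, aeval_X, map_mul, eval_X, map_mul]
    have e : aeval f p * f j - algebraMap ℂ M (eval c p) * algebraMap ℂ M (c j) =
        aeval f p * (f j - algebraMap ℂ M (c j)) +
          (aeval f p - algebraMap ℂ M (eval c p)) * algebraMap ℂ M (c j) := by ring
    rw [e]
    refine Ge.add ?_ ?_
    · simpa using (ge_mv P hf p).mul (hc j)
    · simpa using hp.mul (Ge.const (P := P) (c j))

theorem t_nspec : St_nspec := by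
  intro n r X m _ M _ _ _ u v hs B g hB hg
  classical
  obtain ⟨T1, hT1⟩ := exists_supp (k := ℂ) (Finset.univ : Finset (Fin (n + 1) ⊕ Fin r))
    (Sum.elim u v)
  obtain ⟨T2, hT2⟩ := exists_supp (k := ℂ) (Finset.univ : Finset (Fin 3))
    ![aeval (Sum.elim u v) B, aeval (fun i => u i ^ m) g, aeval (fun i => u i ^ m) X.G]
  obtain ⟨P, hP⟩ := exists_place_not_mem (k := ℂ) (K := M) (T1 ∪ T2)
  rw [Finset.mem_union, not_or] at hP
  obtain ⟨hP1, hP2⟩ := hP
  have ho : ∀ j, P.ord (![aeval (Sum.elim u v) B, aeval (fun i => u i ^ m) g,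
      aeval (fun i => u i ^ m) X.G] j) = 0 := by
    intro j
    by_contra h
    exact hP2 (hT2 j (Finset.mem_univ _) P h)
  have hf : ∀ j, Ge P 0 (Sum.elim u v j) := by
    intro j
    refine Or.inr (le_of_eq ?_)
    by_contra h
    exact hP1 (hT1 j (Finset.mem_univ _) P (Ne.symm h))
  choose c hc using fun j => exists_const P (hf j)
  have hred := red_mv P hf hc
  have hge := ge_mv P hf
  have hu0 : ∀ i, Ge P 0 (u i ^ m) := by
    intro i
    have h1 := hge (MvPolynomial.X (Sum.inl i) ^ m)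
    rwa [map_pow, aeval_X, Sum.elim_inl] at h1
  have hu1 : ∀ i, Ge P 1 (u i ^ m - algebraMap ℂ M (c (Sum.inl i) ^ m)) := by
    intro i
    have h1 := hred (MvPolynomial.X (Sum.inl i) ^ m)
    rwa [map_pow, aeval_X, Sum.elim_inl, map_pow, eval_X] at h1
  have hv1 : ∀ j, Ge P 1 (v j ^ X.e j - algebraMap ℂ M (c (Sum.inr j) ^ X.e j)) := by
    intro j
    have h1 := hred (MvPolynomial.X (Sum.inr j) ^ X.e j)
    rwa [map_pow, aeval_X, Sum.elim_inr, map_pow, eval_X] at h1
  have hredu := red_mv P hu0 hu1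
  have hnz : ∀ {x : M} {z : ℂ}, x ≠ 0 → P.ord x = 0 → Ge P 1 (x - algebraMap ℂ M z) → z ≠ 0 := by
    intro x z hx hx0 hxz hz
    rw [hz, map_zero, sub_zero] at hxz
    have h1 := hxz.resolve_left hx
    omega
  have hce : Sum.elim (fun i => c (Sum.inl i)) (fun j => c (Sum.inr j)) = c := by
    funext j
    rcases j with i | j <;> rfl
  refine ⟨fun i => c (Sum.inl i), fun j => c (Sum.inr j), ⟨fun f hf' => ?_, fun j => ?_, ?_⟩,
    ?_, ?_⟩
  · have h1 := hredu f
    rw [hs.mem f hf', zero_sub] at h1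
    have h2 := h1.neg
    rw [neg_neg] at h2
    rw [MvPolynomial.aeval_eq_eval]
    exact const_zero P h2
  · have h1 := hredu (X.F j)
    rw [← hs.eqn j] at h1
    have h2 := (hv1 j).sub h1
    rw [sub_sub_sub_cancel_left, ← map_sub] at h2
    rw [MvPolynomial.aeval_eq_eval]
    exact (sub_eq_zero.1 (const_zero P h2)).symm
  · rw [MvPolynomial.aeval_eq_eval]
    exact hnz hs.G_ne (ho 2) (hredu X.G)
  · rw [hce]
    exact hnz hB (ho 0) (hred B)
  · exact hnz hg (ho 1) (hredu g)

end Pool.Agent.Y288.FN
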