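import Pool.Agent.Y192.FN.Ind
import Pool.Agent.Y192.KC.ZMain
import Pool.Agent.W603.BP.Germ

/-!
# The Picard property of covers of closed subsets of projective space
-/

set_option autoImplicit false

namespace Pool.Agent.Y288.FN

open MvPolynomial Metric FF Pool.Agent.W603.LV Pool.Agent.W603.PV Pool.Agent.Y192.OG
open Pool.Agent.Y192 Pool.Agent.Y192.FN
open Pool.Agent.Y192.KC (Cov ZCov ZRed laur)

theorem half_mem : (1 / 2 : ℂ) ∈ ball (0 : ℂ) 1 \ {0} := by
  constructor
  · rw [mem_ball_zero_iff, norm_div]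
    norm_num
  · simp

theorem punct_open : IsOpen (ball (0 : ℂ) 1 \ {0}) := isOpen_ball.sdiff isClosed_singleton

theorem punct_preconn : IsPreconnected (ball (0 : ℂ) 1 \ {0}) := by
  have h := Pool.Agent.W603.BP.PB_preconn (δ := 1) one_pos
  have h1 : Pool.Agent.W603.BP.PB 1 = ball (0 : ℂ) 1 \ {0} := by
    ext z
    constructor
    · rintro ⟨h1, h2⟩
      exact ⟨mem_ball_zero_iff.2 h2, h1⟩
    · rintro ⟨h1, h2⟩
      exact ⟨h2, mem_ball_zero_iff.1 h1⟩
  rwa [h1] at h

/-! ### substitutions -/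

theorem diff_aeval {n : ℕ} {U : Set ℂ} {u : ℂ → Fin (n + 1) → ℂ} (hu : DifferentiableOn ℂ u U)
    (m : ℕ) (f : MvPolynomial (Fin (n + 1)) ℂ) :
    DifferentiableOn ℂ (fun z => aeval (fun i => u z i ^ m) f) U := by
  induction f using MvPolynomial.induction_on with
  | C c =>
    simp only [aeval_C]
    exact differentiableOn_const _
  | add p q hp hq =>
    simp only [map_add]
    exact hp.add hq
  | mul_X p i hp =>
    simp only [map_mul, aeval_X]
    exact hp.mul ((differentiableOn_pi.1 hu i).pow m)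

/-- the value at a point whose coordinate `i` vanishes -/
theorem aeval_sub0 {R : Type} [CommRing R] [Algebra ℂ R] {n : ℕ} (i : Fin (n + 2))
    (x : Fin (n + 2) → R) (hx : x i = 0) (f : MvPolynomial (Fin (n + 2)) ℂ) :
    aeval (fun k => x (i.succAbove k)) (sub0 i f) = aeval x f := by
  unfold sub0
  rw [comp_aeval_apply]
  congr 2
  funext l
  refine Fin.succAboveCases i ?_ (fun k => ?_) l
  · rw [Fin.insertNth_apply_same, map_zero, hx]
  · rw [Fin.insertNth_apply_succAbove, aeval_X]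

/-! ### a coordinate which vanishes -/

theorem sol_drv {R : Type} [CommRing R] [Algebra ℂ R] {n r : ℕ} (X : NDat (n + 1) r) (m : ℕ)
    (i : Fin (n + 2)) {u : Fin (n + 2) → R} {v : Fin r → R} (hu : u i ^ m = 0)
    (h : Sol X m u v) : Sol (X.drv i) m (fun k => u (i.succAbove k)) v where
  mem := by
    intro f hf
    obtain ⟨g, hg, rfl⟩ := (Ideal.mem_map_iff_of_surjective _ (sub0_surj i)).mp hf
    rw [aeval_sub0 i (fun l => u l ^ m) hu]
    exact h.mem g hg
  eqn := by
    intro j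
    have h1 := aeval_sub0 i (fun l => u l ^ m) hu (X.F j)
    exact (h.eqn j).trans h1.symm
  G_ne := by
    have h1 := aeval_sub0 i (fun l => u l ^ m) hu X.G
    intro h2
    exact h.G_ne (h1.symm.trans h2)

theorem sol_drv' {R : Type} [CommRing R] [Algebra ℂ R] {n r : ℕ} (X : NDat (n + 1) r) (m : ℕ)
    (i : Fin (n + 2)) {u : Fin (n + 2) → R} {v : Fin r → R} (hu : u i ^ m = 0)
    (h : Sol (X.drv i) m (fun k => u (i.succAbove k)) v) : Sol X m u v where
  mem := by
    intro f hf
    rw [← aeval_sub0 i (fun l => u l ^ m) hu]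
    exact h.mem _ (Ideal.mem_map_of_mem _ hf)
  eqn := by
    intro j
    have h1 := aeval_sub0 i (fun l => u l ^ m) hu (X.F j)
    exact (h.eqn j).trans h1
  G_ne := by
    have h1 := aeval_sub0 i (fun l => u l ^ m) hu X.G
    intro h2
    exact h.G_ne (h1.trans h2)

theorem sol_drF {R : Type} [CommRing R] [Algebra ℂ R] {n r : ℕ} (X : NDat n (r + 1)) (m : ℕ)
    (j : Fin (r + 1)) {u : Fin (n + 1) → R} {v : Fin (r + 1) → R}
    (h : Sol X m u v) : Sol (X.drF j) m u (fun k => v (j.succAbove k)) where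
  mem := h.mem
  eqn := fun _ => h.eqn _
  G_ne := h.G_ne

theorem sol_drF' {R : Type} [CommRing R] [Algebra ℂ R] {n r : ℕ} (X : NDat n (r + 1)) (m : ℕ)
    (j : Fin (r + 1)) (hj : X.F j ∈ X.J) {u : Fin (n + 1) → R} {v : Fin (r + 1) → R}
    (hv : v j = 0) (h : Sol (X.drF j) m u (fun k => v (j.succAbove k))) : Sol X m u v where
  mem := h.mem
  eqn := by
    intro l
    refine Fin.succAboveCases (α := fun l => v l ^ X.e l = aeval (fun i => u i ^ m) (X.F l))
      j ?_ (fun k => ?_) l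
    · rw [hv, zero_pow (X.he j).ne']
      exact (h.mem _ hj).symm
    · exact h.eqn k
  G_ne := h.G_ne

theorem sol_add {R : Type} [CommRing R] [Algebra ℂ R] {n r : ℕ} (X : NDat n r) (m : ℕ)
    (g : MvPolynomial (Fin (n + 1)) ℂ)
    (h : ∀ f ∈ X.J ⊔ Ideal.span {g}, ∀ k, homogeneousComponent k f ∈ X.J ⊔ Ideal.span {g})
    {u : Fin (n + 1) → R} {v : Fin r → R} :
    Sol (X.add g h) m u v ↔ Sol X m u v ∧ aeval (fun i => u i ^ m) g = 0 := by
  constructor
  · intro h1
    exact ⟨⟨fun f hf => h1.mem f (Ideal.mem_sup_left hf), h1.eqn, h1.G_ne⟩,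
      h1.mem g (Ideal.mem_sup_right (Ideal.mem_span_singleton_self g))⟩
  · rintro ⟨h1, h2⟩
    refine ⟨fun f hf => ?_, h1.eqn, h1.G_ne⟩
    obtain ⟨a, ha, b, hb, rfl⟩ := Submodule.mem_sup.mp hf
    obtain ⟨c, rfl⟩ := Ideal.mem_span_singleton'.mp hb
    rw [map_add, map_mul, h1.mem a ha, h2, mul_zero, add_zero]

/-- restrictions to hypersurfaces have no multiplicative groups either -/
theorem noGm_add {n r : ℕ} (X : NDat n r) (m : ℕ) (g : MvPolynomial (Fin (n + 1)) ℂ)
    (h : ∀ f ∈ X.J ⊔ Ideal.span {g}, ∀ k, homogeneousComponent k f ∈ X.J ⊔ Ideal.span {g})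
    (hX : NNoGm X m) : NNoGm (X.add g h) m := fun p s hps =>
  hX p s ⟨hps.ne, fun z hz => ((sol_add X m g h).1 (hps.sol z hz)).1, hps.nonconst⟩

theorem disc_add {n r : ℕ} (X : NDat n r) (m : ℕ) (g : MvPolynomial (Fin (n + 1)) ℂ)
    (h : ∀ f ∈ X.J ⊔ Ideal.span {g}, ∀ k, homogeneousComponent k f ∈ X.J ⊔ Ideal.span {g})
    {u : ℂ → Fin (n + 1) → ℂ} {v : ℂ → Fin r → ℂ} (hd : NDisc X m u v)
    (hg : ∀ z ∈ ball (0 : ℂ) 1 \ {0}, aeval (fun i => u z i ^ m) g = 0) :
    NDisc (X.add g h) m u v :=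
  ⟨hd.diffu, hd.diffv, hd.ne, fun z hz => (sol_add X m g h).2 ⟨hd.sol z hz, hg z hz⟩⟩

theorem diff_insert {n : ℕ} {U : Set ℂ} (i : Fin (n + 1)) {u : ℂ → Fin n → ℂ}
    (hu : DifferentiableOn ℂ u U) :
    DifferentiableOn ℂ (fun z => (i.insertNth (α := fun _ => ℂ) 0 (u z) : Fin (n + 1) → ℂ)) U := by
  refine differentiableOn_pi.2 fun l => ?_
  refine Fin.succAboveCases i ?_ (fun k => ?_) l
  · simp only [Fin.insertNth_apply_same]
    exact differentiableOn_const _
  · simp only [Fin.insertNth_apply_succAbove]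
    exact differentiableOn_pi.1 hu k

theorem eval_insert {n : ℕ} (i : Fin (n + 1)) (p : Fin n → Polynomial ℂ) (z : ℂ) :
    (fun k => ((i.insertNth (α := fun _ => Polynomial ℂ) 0 p : Fin (n + 1) → Polynomial ℂ)
      (i.succAbove k)).eval z) = fun k => (p k).eval z := by
  funext k
  rw [Fin.insertNth_apply_succAbove]

theorem noGm_drv {n r : ℕ} (X : NDat (n + 1) r) (m : ℕ) (hm : 0 < m) (i : Fin (n + 2))
    (hX : NNoGm X m) : NNoGm (X.drv i) m := by
  intro p s hps
  refine hX (i.insertNth (α := fun _ => Polynomial ℂ) 0 p) s ⟨fun z hz => ?_, fun z hz => ?_, ?_⟩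
  · obtain ⟨k, hk⟩ := hps.ne z hz
    refine ⟨i.succAbove k, ?_⟩
    rw [Fin.insertNth_apply_succAbove]
    exact hk
  · refine sol_drv' X m i ?_ ?_
    · rw [Fin.insertNth_apply_same, Polynomial.eval_zero, zero_pow hm.ne']
    · rw [eval_insert]
      exact hps.sol z hz
  · obtain ⟨z, z', hz, hz', a, b, hab⟩ := hps.nonconst
    refine ⟨z, z', hz, hz', i.succAbove a, i.succAbove b, ?_⟩
    rw [Fin.insertNth_apply_succAbove, Fin.insertNth_apply_succAbove]
    exact hab

theorem noGm_drF {n r : ℕ} (X : NDat n (r + 1)) (m : ℕ) (j : Fin (r + 1)) (hj : X.F j ∈ X.J)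
    (hX : NNoGm X m) : NNoGm (X.drF j) m := by
  intro p s hps
  refine hX p (j.insertNth (α := fun _ => Polynomial ℂ) 0 s) ⟨hps.ne, fun z hz => ?_,
    hps.nonconst⟩
  refine sol_drF' X m j hj ?_ ?_
  · rw [Fin.insertNth_apply_same, Polynomial.eval_zero]
  · rw [eval_insert]
    exact hps.sol z hz

theorem pow_zero_of {x : ℂ} {m : ℕ} (h : x ^ m = 0) : x = 0 := by
  by_contra hx
  exact pow_ne_zero m hx h

/-- **The Picard property, by Noetherian induction.** -/
theorem t_qd : St_qd := by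
  intro h_prime h_zred h_nred h_ndisc
  refine nind QD ?_ ?_ ?_ ?_ ?_
  · -- empty
    intro n r X hX
    refine ⟨0, fun m _ _ _ _ u v hd => ?_⟩
    exfalso
    have hs := hd.sol _ half_mem
    rcases hX with hX | hX | hX
    · have h1 := hs.mem 1 (by rw [hX]; exact Submodule.mem_top)
      rw [map_one] at h1
      exact one_ne_zero h1
    · apply hd.ne _ half_mem
      funext i
      have h1 := hs.mem _ (hX i)
      rw [aeval_X] at h1
      exact pow_zero_of h1
    · exact hs.G_ne (hs.mem _ hX)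
  · -- union
    intro n r X a b k l ha hb hab ⟨m1, h1⟩ ⟨m2, h2⟩
    refine ⟨max m1 m2, fun m hm hm0 he hG u v hd => ?_⟩
    have hz : (∀ z ∈ ball (0 : ℂ) 1 \ {0}, aeval (fun i => u z i ^ m) a = 0) ∨
        ∀ z ∈ ball (0 : ℂ) 1 \ {0}, aeval (fun i => u z i ^ m) b = 0 := by
      refine AnalyticOnNhd.eq_zero_or_eq_zero_of_mul_eq_zero
        ((diff_aeval hd.diffu m a).analyticOnNhd punct_open)
        ((diff_aeval hd.diffu m b).analyticOnNhd punct_open) (fun z hz => ?_) punct_preconn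
      rw [← map_mul]
      exact (hd.sol z hz).mem _ hab
    rcases hz with hz | hz
    · exact h1 m ((le_max_left _ _).trans hm) hm0 he (noGm_add X m a _ hG) u v
        (disc_add X m a _ hd hz)
    · exact h2 m ((le_max_right _ _).trans hm) hm0 he (noGm_add X m b _ hG) u v
        (disc_add X m b _ hd hz)
  · -- a coordinate vanishes
    intro n r X i hi ⟨m0, h0⟩
    refine ⟨m0, fun m hm hm0 he hG u v hd => ?_⟩
    have hui : ∀ z ∈ ball (0 : ℂ) 1 \ {0}, u z i ^ m = 0 := by
      intro z hz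
      have h1 := (hd.sol z hz).mem _ hi
      rw [aeval_X] at h1
      exact h1
    have hd' : NDisc (X.drv i) m (fun z k => u z (i.succAbove k)) v := by
      refine ⟨?_, hd.diffv, fun z hz h1 => ?_, fun z hz => sol_drv X m i (hui z hz) (hd.sol z hz)⟩
      · exact differentiableOn_pi.2 fun k => differentiableOn_pi.1 hd.diffu _
      · apply hd.ne z hz
        funext l
        refine Fin.succAboveCases (α := fun l => u z l = 0) i ?_ (fun k => ?_) l
        · exact pow_zero_of (hui z hz)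
        · exact congrFun h1 k
    obtain ⟨ρ, hρ, u', v', hu', hv', hne, hs⟩ := h0 m hm hm0 he (noGm_drv X m hm0 i hG) _ _ hd'
    refine ⟨min ρ 1, lt_min hρ one_pos, fun z => i.insertNth (α := fun _ => ℂ) 0 (u' z), v', ?_,
      ?_, ?_, ?_⟩
    · exact (diff_insert i hu').mono (ball_subset_ball (min_le_left _ _))
    · exact hv'.mono (ball_subset_ball (min_le_left _ _))
    · intro z hz h1
      apply hne z (ball_subset_ball (min_le_left _ _) hz)
      funext k
      have h2 := congrFun h1 (i.succAbove k)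
      simp only [Fin.insertNth_apply_succAbove] at h2
      exact h2
    · intro z hz
      obtain ⟨s, hs0, hs1, hs2⟩ := hs z ⟨ball_subset_ball (min_le_left _ _) hz.1, hz.2⟩
      refine ⟨s, hs0, fun l => ?_, hs2⟩
      refine Fin.succAboveCases (α := fun l => u z l =
        s * (i.insertNth (α := fun _ => ℂ) 0 (u' z) : Fin (n + 2) → ℂ) l) i ?_ (fun k => ?_) l
      · rw [Fin.insertNth_apply_same, mul_zero]
        exact pow_zero_of (hui z ⟨ball_subset_ball (min_le_right _ _) hz.1, hz.2⟩)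
      · rw [Fin.insertNth_apply_succAbove]
        exact hs1 k
  · -- a form vanishes
    intro n r X j hj ⟨m0, h0⟩
    refine ⟨m0, fun m hm hm0 he hG u v hd => ?_⟩
    have hvj : ∀ z ∈ ball (0 : ℂ) 1 \ {0}, v z j = 0 := by
      intro z hz
      have h1 := (hd.sol z hz).mem _ hj
      rw [← (hd.sol z hz).eqn j] at h1
      exact pow_zero_of h1
    have hd' : NDisc (X.drF j) m u (fun z k => v z (j.succAbove k)) :=
      ⟨hd.diffu, differentiableOn_pi.2 fun k => differentiableOn_pi.1 hd.diffv _, hd.ne,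
        fun z hz => sol_drF X m j (hd.sol z hz)⟩
    obtain ⟨ρ, hρ, u', v', hu', hv', hne, hs⟩ := h0 m hm hm0 (fun k => he _)
      (noGm_drF X m j hj hG) _ _ hd'
    refine ⟨min ρ 1, lt_min hρ one_pos, u', fun z => j.insertNth (α := fun _ => ℂ) 0 (v' z), ?_,
      ?_, ?_, ?_⟩
    · exact hu'.mono (ball_subset_ball (min_le_left _ _))
    · exact (diff_insert j hv').mono (ball_subset_ball (min_le_left _ _))
    · exact fun z hz => hne z (ball_subset_ball (min_le_left _ _) hz)
    · intro z hz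
      obtain ⟨s, hs0, hs1, hs2⟩ := hs z ⟨ball_subset_ball (min_le_left _ _) hz.1, hz.2⟩
      refine ⟨s, hs0, hs1, fun l => ?_⟩
      refine Fin.succAboveCases (α := fun l => v z l =
        s ^ (m * X.d l / X.e l) * (j.insertNth (α := fun _ => ℂ) 0 (v' z) : Fin (r + 1) → ℂ) l)
        j ?_ (fun k => ?_) l
      · rw [Fin.insertNth_apply_same, mul_zero]
        exact hvj z ⟨ball_subset_ball (min_le_right _ _) hz.1, hz.2⟩
      · rw [Fin.insertNth_apply_succAbove]
        exact hs2 k
  · -- irreducible varieties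
    intro n r X ih
    by_cases hR : ZRed X
    · exact ⟨0, fun m _ hm0 he hG => absurd hG (h_nred n r X m hm0 he hR)⟩
    · obtain ⟨K, i1, i2, x, hx, hgen⟩ := KC.exists_K X
      have hRL : ¬ KC.RedL x X.FL X.eL := fun h => hR (h_zred n r X K x hx h)
      have hFne : ∀ j, ep x (X.FL j) ≠ 0 := by
        intro j
        refine Fin.cases ?_ (fun j => ?_) j
        · intro h
          exact X.hGI ((hx X.G X.q X.hG).mp h)
        · intro h
          exact X.hFI j ((hx (X.F j) (X.d j) (X.hF j)).mp h)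
      obtain ⟨Γ, A, D, S, a, m0, G, hs, hG, hk, hj, hcurves⟩ :=
        h_prime n (r + 1) K x X.FL X.eL hFne
      have htop : Γ = ⊤ := by
        by_contra hne
        exact hRL (KC.redL_of hs hG hk hj hne)
      obtain ⟨g, k, hg, hgI, hdisc⟩ := h_ndisc n r X K x m0 G hx hG
        (fun m' hm' he' c hc1 hc2 hc3 γ =>
          hcurves m' hm' he' c hc1 hc2 hc3 γ (by rw [htop]; exact Submodule.mem_top))
      obtain ⟨m1, h1⟩ := ih g k hg hgI
      refine ⟨max m0 m1, fun m hm hm0 he hnG u v hd => ?_⟩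
      by_cases hz : ∃ z ∈ ball (0 : ℂ) 1 \ {0}, eval (fun i => u z i ^ m) g ≠ 0
      · exact hdisc m ((le_max_left _ _).trans hm) hm0 he u v hd hz
      · push Not at hz
        exact h1 m ((le_max_right _ _).trans hm) hm0 he (noGm_add (ofZ X) m g _ hnG) u v
          (disc_add (ofZ X) m g _ hd fun z hz' => by
            rw [MvPolynomial.aeval_eq_eval]
            exact hz z hz')

end Pool.Agent.Y288.FN
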